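import Pool.Agent.Q173.PT.Simplicial

/-!
# The Singer conjecture for Poincaré duality groups and bounds near the middle degree
-/

set_option autoImplicit false

open Pool.Agent.Q173.PT

namespace Pool.Agent.Results.MP_984acc_gt.NearMiddleBounds

universe u

theorem result {V : Type u} (G : BettiData V) (hG : G.IsKnown) :
    G.Singer ↔ ∀ K B : ℕ, ∃ m, B ≤ m ∧ K ≤ m ∧ ∃ C : ℝ, ∀ M, G.dim M = 2 * m →
      ∀ p, p ≠ m → p ≤ m + K → m ≤ p + K →
        G.betti M p ≤ C * (G.rk M : ℝ) ^ (m - K) :=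
  hG.singer_iff

end Pool.Agent.Results.MP_984acc_gt.NearMiddleBounds
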