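import Pool.Agent.Q169.RC.GrowB

/-!
# A bound for the `ℓ²`-Betti numbers of Poincaré duality groups of odd dimension in right-angled Coxeter groups

Let the flag complex `L` of the graph `G` on `0, ..., N-1` be a homology sphere of dimension `2 m` (over the reals and
modulo `2`). The torsion-free subgroups of finite index of the right-angled Coxeter group `W G` are then Poincaré
duality groups of dimension `n = 2 m + 1`, and Singer's conjecture says that all their `ℓ²`-Betti numbers vanish. Let
`χ_v` be the Euler characteristic of the right-angled Coxeter group of the link of the vertex `v`, a sphere of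
dimension `2 m - 1`. For each set `B` of vertices which can be coloured with `m + 1` colours, if the simplices with a
vertex outside `B` are good, we prove that the `ℓ²`-Betti numbers in the degrees `i ≠ m, m + 1` vanish and (in the
language of the growth of the Betti numbers of the subgroups of finite index) that the `ℓ²`-Betti numbers in the
degrees `m` and `m + 1` are at most `(1/2) ∑_(v ∉ B) (-1)^m χ_v`.
-/

set_option autoImplicit false

namespace Pool.Agent.Results.MP_984acc_gt.OddDimensionBound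

open Finset Pool.Agent.W907.SG Pool.Agent.W907.SM Pool.Agent.TH652.Above Pool.Agent.Q169.RC Pool.Agent.Y132.SI

/-- the flag complex of a graph: its simplices are the cliques -/
noncomputable def flagComplex {n : ℕ} (G : SimpleGraph (Fin n)) : Finset (Finset (Fin n)) := by
  classical exact univ.filter (fun T => G.IsClique (T : Set (Fin n)))

/-! ### homology spheres -/

/-- the chain `c`, with coefficients modulo `2`, is supported on the faces of `K` with `j`
vertices -/
def SupportedOn {N : ℕ} (K : Finset (Finset (Fin N))) (j : ℕ) (c : Finset (Fin N) → ZMod 2) :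
    Prop :=
  ∀ σ, c σ ≠ 0 → σ ∈ K ∧ σ.card = j

/-- the boundary of a chain (the augmentation is included: the empty face has dimension `-1`) -/
def boundary {N : ℕ} (c : Finset (Fin N) → ZMod 2) (ρ : Finset (Fin N)) : ZMod 2 :=
  ∑ v ∈ ρᶜ, c (insert v ρ)

/-- the reduced mod `2` homology of `K` vanishes in dimension `j - 1` -/
def AcyclicAt {N : ℕ} (K : Finset (Finset (Fin N))) (j : ℕ) : Prop :=
  ∀ c : Finset (Fin N) → ZMod 2, SupportedOn K j c → (∀ ρ, boundary c ρ = 0) →
    ∃ b, SupportedOn K (j + 1) b ∧ ∀ ρ, c ρ = boundary b ρ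

/-- the link of the face `σ` -/
def link {N : ℕ} (K : Finset (Finset (Fin N))) (σ : Finset (Fin N)) : Finset (Finset (Fin N)) :=
  univ.filter (fun τ => Disjoint τ σ ∧ τ ∪ σ ∈ K)

/-- mod `2` homology spheres of dimension `d - 1`: the complex `K` contains the empty face and is closed under
subsets, and the link of every face `σ` (also of the empty face) has the reduced mod `2` homology of a sphere of
dimension `d - 1 - |σ|` -/
def IsHomologySphere {N : ℕ} (K : Finset (Finset (Fin N))) (d : ℕ) : Prop :=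
  (∅ ∈ K ∧ ∀ σ ∈ K, ∀ τ : Finset (Fin N), τ ⊆ σ → τ ∈ K) ∧ (∀ σ ∈ K, σ.card ≤ d) ∧
    (∀ σ ∈ K, ∀ j, j + σ.card ≠ d → AcyclicAt (link K σ) j) ∧
    ∀ σ ∈ K, ∃ z : Finset (Fin N) → ZMod 2, z ≠ 0 ∧ SupportedOn (link K σ) (d - σ.card) z ∧
      (∀ ρ, boundary z ρ = 0) ∧
      ∀ z', SupportedOn (link K σ) (d - σ.card) z' → (∀ ρ, boundary z' ρ = 0) → z' = 0 ∨ z' = z

/-! ### the theorem -/

theorem mem_flag {n : ℕ} (G : SimpleGraph (Fin n)) (T : Finset (Fin n)) :
    T ∈ flagComplex G ↔ G.IsClique (T : Set (Fin n)) := by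
  classical
  unfold flagComplex
  simp

/-- the growth of the Betti numbers of the subgroups of finite index of `W G`: for each `ε > 0` there is a finite set
`E` of nontrivial elements such that for each subgroup `H` of finite index which contains no conjugate of an element
of `E` the `i`-th real Betti number of `H` is at most `ε [W G : H]` for `i ≠ m, m + 1` and at most
`(b + ε) [W G : H]` for `i = m` and `i = m + 1` -/
def GrowthBound {N : ℕ} (m : ℕ) (G : SimpleGraph (Fin N)) (b : ℚ) : Prop :=
  ∀ ε : ℝ, 0 < ε → ∃ E : Finset (W G), (1 : W G) ∉ E ∧ ∀ H : Subgroup (W G), H.FiniteIndex →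
    (∀ g ∈ E, ∀ x : W G, x * g * x⁻¹ ∉ H) → ∀ i : ℕ,
      (i ≠ m → i ≠ m + 1 → (Module.finrank ℝ (HInv G H i) : ℝ) ≤ ε * H.index) ∧
      (i = m ∨ i = m + 1 → (Module.finrank ℝ (HInv G H i) : ℝ) ≤ ((b : ℝ) + ε) * H.index)

/-- a choice of `m` among `2 m + 1` consecutive residues with a small sum -/
theorem shift (m : ℕ) (w : Fin (2 * m + 1) → ℚ) :
    ∃ s : Fin (2 * m + 1), ∑ j ∈ univ.filter (fun j : Fin (2 * m + 1) => (j - s).val < m), w j ≤
      m / (2 * m + 1) * ∑ j, w j := by
  by_contra hcon
  push Not at hcon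
  have h1 : ∑ _s : Fin (2 * m + 1), (m / (2 * m + 1) * ∑ j, w j : ℚ) <
      ∑ s : Fin (2 * m + 1), ∑ j ∈ univ.filter (fun j : Fin (2 * m + 1) => (j - s).val < m), w j :=
    sum_lt_sum_of_nonempty univ_nonempty fun s _ => hcon s
  rw [sum_const, card_univ, Fintype.card_fin, nsmul_eq_mul] at h1
  have h2 : ∑ s : Fin (2 * m + 1), ∑ j ∈ univ.filter (fun j : Fin (2 * m + 1) => (j - s).val < m), w j =
      m * ∑ j, w j := by
    simp only [sum_filter]
    rw [sum_comm, mul_sum]
    refine sum_congr rfl fun j _ => ?_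
    rw [← sum_filter, sum_const, nsmul_eq_mul]
    congr 1
    have h3 : (univ.filter (fun s : Fin (2 * m + 1) => (j - s).val < m)).card =
        (univ.filter (fun t : Fin (2 * m + 1) => t.val < m)).card := by
      refine card_bij (fun s _ => j - s) (fun s hs => ?_) (fun s _ s' _ h => ?_) (fun t ht => ?_)
      · rw [mem_filter] at hs ⊢
        exact ⟨mem_univ _, hs.2⟩
      · exact sub_right_injective h
      · rw [mem_filter] at ht
        refine ⟨j - t, ?_, sub_sub_cancel j t⟩
        rw [mem_filter, sub_sub_cancel]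
        exact ⟨mem_univ _, ht.2⟩
    rw [h3]
    have h4 : (univ.filter (fun t : Fin (2 * m + 1) => t.val < m)).card = m := by
      have h5 : (univ.filter (fun t : Fin (2 * m + 1) => t.val < m)) =
          (univ : Finset (Fin m)).map (Fin.castLEEmb (by omega)) := by
        ext t
        rw [mem_filter, mem_map]
        constructor
        · rintro ⟨-, h⟩
          exact ⟨⟨t.val, h⟩, mem_univ _, Fin.ext rfl⟩
        · rintro ⟨x, -, rfl⟩
          exact ⟨mem_univ _, x.2⟩
      rw [h5, card_map, card_univ, Fintype.card_fin]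
    rw [h4]
  rw [h2] at h1
  have h3 : (0 : ℚ) < 2 * m + 1 := by positivity
  have h4 : ((2 * m + 1 : ℕ) : ℚ) * (m / (2 * m + 1) * ∑ j, w j) = m * ∑ j, w j := by
    push_cast
    field_simp
  rw [h4] at h1
  exact lt_irrefl _ h1

open Classical in
/-- Let the flag complex of `G` be a homology sphere of dimension `2 m` over the reals (`HSph (2 m + 1) G`) and modulo
`2`. (1) Let `B` be a set of vertices with a colouring by `m + 1` colours such that adjacent vertices of `B` have
different colours, and assume that every simplex with a vertex outside `B` is good. Then the Davis complex of `W G` has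
no nonzero `ℓ²` harmonic `i`-chains for `i ≠ m, m + 1`, and the Betti numbers of the subgroups of finite index satisfy
the bound with `b = (1/2) ∑_(v ∉ B) (-1)^m χ_v`, where `χ_v` is the Euler characteristic of the right-angled Coxeter
group of the link of `v`. (2) If `G` has a proper colouring with `2 m + 1` colours and all nonempty simplices are good
then the bound holds with `b = (1/2) (m / (2 m + 1)) ∑_v (-1)^m χ_v`. -/
theorem result (m N : ℕ) (G : SimpleGraph (Fin N)) (hR : HSph (2 * m + 1) G)
    (h2 : IsHomologySphere (flagComplex G) (2 * m + 1)) :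
    (∀ (B : Set (Fin N)) (κ : Fin N → Fin (m + 1)),
      (∀ u v, u ∈ B → v ∈ B → G.Adj u v → κ u ≠ κ v) →
      (∀ v, v ∉ B → ∀ T : Finset (Fin N), v ∈ T → G.IsClique (T : Set (Fin N)) → Good (2 * m + 1) G T) →
      (∀ i : ℕ, i ≠ m → i ≠ m + 1 → L2Van G i) ∧
      GrowthBound m G ((1 / 2) * ∑ v ∈ univ.filter (fun v => v ∉ B), (-1) ^ m * chiS G (G.neighborSet v))) ∧
    ∀ c : Fin N → Fin (2 * m + 1), (∀ u v, G.Adj u v → c u ≠ c v) →
      (∀ T : Finset (Fin N), T.Nonempty → G.IsClique (T : Set (Fin N)) → Good (2 * m + 1) G T) →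
      GrowthBound m G ((1 / 2) * (m / (2 * m + 1)) * ∑ v, (-1) ^ m * chiS G (G.neighborSet v)) := by
  have hH : Pool.Agent.Y131.KS.HSph (flagComplex G) (2 * m + 1) := ⟨h2.1, h2.2.1, h2.2.2.1, h2.2.2.2⟩
  have main : ∀ (B : Set (Fin N)) (κ : Fin N → Fin (m + 1)),
      (∀ u v, u ∈ B → v ∈ B → G.Adj u v → κ u ≠ κ v) →
      (∀ v, v ∉ B → ∀ T : Finset (Fin N), v ∈ T → G.IsClique (T : Set (Fin N)) → Good (2 * m + 1) G T) →
      (∀ i : ℕ, i ≠ m → i ≠ m + 1 → L2Van G i) ∧
      GrowthBound m G ((1 / 2) * ∑ v ∈ univ.filter (fun v => v ∉ B), (-1) ^ m * chiS G (G.neighborSet v)) := by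
    intro B κ hκ hB
    refine ⟨fun i hi hi' => outer_B G (flagComplex G) (mem_flag G) hH hR B κ hκ hB i hi hi', fun ε hε => ?_⟩
    exact growth_B G (flagComplex G) (mem_flag G) hH hR B κ hκ hB ε hε
  refine ⟨main, fun c hc hT ε hε => ?_⟩
  obtain ⟨w, hw⟩ : ∃ w : Fin (2 * m + 1) → ℚ, ∀ j, w j =
    ∑ v ∈ univ.filter (fun v => c v = j), (-1) ^ m * chiS G (G.neighborSet v) := ⟨_, fun _ => rfl⟩
  obtain ⟨s, hs⟩ := shift m w
  have hsum : ∑ j, w j = ∑ v, (-1) ^ m * chiS G (G.neighborSet v) := by
    simp only [hw]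
    exact sum_fiberwise univ c _
  obtain ⟨B, hB⟩ : ∃ B : Set (Fin N), ∀ v, v ∈ B ↔ m ≤ (c v - s).val := ⟨{v | m ≤ (c v - s).val}, fun v => Iff.rfl⟩
  have hsum2 : ∑ v ∈ univ.filter (fun v => v ∉ B), (-1) ^ m * chiS G (G.neighborSet v) =
      ∑ j ∈ univ.filter (fun j : Fin (2 * m + 1) => (j - s).val < m), w j := by
    have h3 : ∀ j, w j = ∑ v, if c v = j then (-1) ^ m * chiS G (G.neighborSet v) else 0 := by
      intro j
      rw [hw, sum_filter]
    simp only [h3]
    rw [sum_comm, sum_filter]
    refine sum_congr rfl fun v _ => ?_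
    rw [sum_ite_eq]
    refine if_congr ?_ rfl rfl
    rw [hB, mem_filter, not_le]
    simp
  have h3 := (main B (fun v => ⟨(c v - s).val - m, by have := (c v - s).isLt; omega⟩) (fun u v hu hv huv h => by
    rw [hB] at hu hv
    rw [Fin.mk.injEq] at h
    have h4 : c u - s = c v - s := Fin.ext (by omega)
    exact hc u v huv (sub_left_injective h4)) (fun v _ T hv hT' => hT T ⟨v, hv⟩ hT')).2 ε hε
  obtain ⟨E, hE1, hE2⟩ := h3
  refine ⟨E, hE1, fun H hH' hE i => ⟨(hE2 H hH' hE i).1, fun hi => ((hE2 H hH' hE i).2 hi).trans ?_⟩⟩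
  refine mul_le_mul_of_nonneg_right ?_ (Nat.cast_nonneg _)
  have h4 : (1 / 2 : ℚ) * ∑ v ∈ univ.filter (fun v => v ∉ B), (-1) ^ m * chiS G (G.neighborSet v) ≤
      (1 / 2) * (m / (2 * m + 1)) * ∑ v, (-1) ^ m * chiS G (G.neighborSet v) := by
    rw [hsum2, ← hsum, mul_assoc]
    exact mul_le_mul_of_nonneg_left hs (by norm_num)
  have h5 := (Rat.cast_le (K := ℝ)).2 h4
  linarith

end Pool.Agent.Results.MP_984acc_gt.OddDimensionBound
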